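import Pool.Agent.LPK.Stmts

/-!
# Squad LPK, row DUA: dual bases
-/

set_option autoImplicit false

noncomputable section

open MeasureTheory Filter Topology
open scoped RealInnerProductSpace

namespace Pool.Agent.LPK.H26

variable {n : ℕ} {κ : ℝ} {b b' : Fin n → V n}

theorem inner_comb (h : Du κ b b') (z : Fin n → ℝ) (j : Fin n) :
    ⟪∑ i, z i • b i, b' j⟫ = 2 * Real.pi * z j := by
  rw [sum_inner]
  rw [Finset.sum_eq_single j]
  · rw [real_inner_smul_left, h.dual, if_pos rfl]
    ring
  · intro i _ hi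
    rw [real_inner_smul_left, h.dual, if_neg hi, mul_zero]
  · intro hj
    exact absurd (Finset.mem_univ j) hj

theorem inner_pt (h : Du κ b b') (a c : Fin n → ℤ) :
    ⟪pt b a, pt b' c⟫ = 2 * Real.pi * (∑ i, a i * c i : ℤ) := by
  unfold pt
  rw [inner_sum]
  push_cast
  rw [Finset.mul_sum]
  refine Finset.sum_congr rfl fun j _ => ?_
  rw [real_inner_smul_right, inner_comb h (fun i => (a i : ℝ)) j]
  ring

theorem det_mul (h : Du κ b b') : (Matrix.of fun i j => b i j).det *
    (Matrix.of fun i j => b' i j).det = (2 * Real.pi) ^ n := by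
  have h1 : (Matrix.of fun i j => b i j) * (Matrix.of fun i j => b' i j).transpose =
      (2 * Real.pi) • (1 : Matrix (Fin n) (Fin n) ℝ) := by
    ext i j
    rw [Matrix.mul_apply, Matrix.smul_apply, Matrix.one_apply]
    have h2 := h.dual i j
    rw [PiLp.inner_apply] at h2
    simp only [Matrix.of_apply, Matrix.transpose_apply]
    have h3 : ∀ k, inner ℝ (b i k) (b' j k) = b i k * b' j k := by
      intro k
      simp [mul_comm]
    rw [← Finset.sum_congr rfl fun k _ => h3 k, h2]
    split <;> simp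
  have h2 := congrArg Matrix.det h1
  rw [Matrix.det_mul, Matrix.det_transpose, Matrix.det_smul, Matrix.det_one, Fintype.card_fin,
    mul_one] at h2
  exact h2

/-- **DUA** -/
theorem dua : DuaStmt := by
  intro n κ b b' h
  have hp : 0 < 2 * Real.pi := by positivity
  refine ⟨⟨inv_pos.2 h.pos, fun i j => ?_, ?_⟩, inner_pt h, ?_, ?_, ?_⟩
  · rw [real_inner_comm, h.dual]
    by_cases hij : i = j
    · rw [if_pos hij, if_pos hij.symm]
    · rw [if_neg hij, if_neg fun e => hij e.symm]
  · have h1 := det_mul h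
    have h2 := h.vol
    have hk := h.pos
    set x := (Matrix.of fun i j => b i j).det
    set y := (Matrix.of fun i j => b' i j).det
    have h3 : (κ ^ 2 * (2 * Real.pi) ^ n) * y ^ 2 = (2 * Real.pi) ^ n * (2 * Real.pi) ^ n := by
      rw [← h2, ← h1]
      ring
    have h4 : (2 * Real.pi) ^ n ≠ 0 := (pow_pos hp n).ne'
    have h5 : κ ^ 2 * y ^ 2 = (2 * Real.pi) ^ n := by
      apply mul_left_cancel₀ h4
      rw [← h3]
      ring
    rw [← h5]
    field_simp
  · set S := ∑ j, ‖b' j‖ ^ 2
    have hS : 0 ≤ S := Finset.sum_nonneg fun j _ => sq_nonneg _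
    refine ⟨(2 * Real.pi) ^ 2 / (1 + S), by positivity, fun z => ?_⟩
    set x := ∑ i, z i • b i with hx
    have h1 : ∀ j, (2 * Real.pi) ^ 2 * z j ^ 2 ≤ ‖x‖ ^ 2 * ‖b' j‖ ^ 2 := by
      intro j
      have h2 := inner_comb h z j
      have h3 := abs_real_inner_le_norm x (b' j)
      rw [hx, h2] at h3
      have h4 : (|2 * Real.pi * z j|) ^ 2 ≤ (‖x‖ * ‖b' j‖) ^ 2 :=
        pow_le_pow_left₀ (abs_nonneg _) h3 2
      rw [sq_abs] at h4
      calc (2 * Real.pi) ^ 2 * z j ^ 2 = (2 * Real.pi * z j) ^ 2 := by ring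
        _ ≤ (‖x‖ * ‖b' j‖) ^ 2 := h4
        _ = _ := by ring
    have h2 : (2 * Real.pi) ^ 2 * ∑ j, z j ^ 2 ≤ ‖x‖ ^ 2 * S := by
      rw [Finset.mul_sum, Finset.mul_sum]
      exact Finset.sum_le_sum fun j _ => h1 j
    rw [div_mul_eq_mul_div, div_le_iff₀ (by positivity)]
    have h3 : ‖x‖ ^ 2 * S ≤ ‖x‖ ^ 2 * (1 + S) :=
      mul_le_mul_of_nonneg_left (by linarith) (sq_nonneg _)
    exact h2.trans h3
  · intro a c
    refine ⟨?_, ?_, ?_, ?_⟩
    · unfold pt
      rw [← Finset.sum_add_distrib]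
      refine Finset.sum_congr rfl fun i _ => ?_
      rw [Pi.add_apply, ← add_smul]
      push_cast
      rfl
    · unfold pt
      rw [← Finset.sum_sub_distrib]
      refine Finset.sum_congr rfl fun i _ => ?_
      rw [Pi.sub_apply, ← sub_smul]
      push_cast
      rfl
    · unfold pt
      rw [← Finset.sum_neg_distrib]
      refine Finset.sum_congr rfl fun i _ => ?_
      rw [Pi.neg_apply, ← neg_smul]
      push_cast
      rfl
    · unfold pt
      refine Finset.sum_eq_zero fun i _ => ?_
      rw [Pi.zero_apply, Int.cast_zero, zero_smul]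
  · intro a
    unfold pt
    rw [Finset.smul_sum]
    refine Finset.sum_congr rfl fun i _ => ?_
    rw [smul_smul]
    congr 1
    simp

end Pool.Agent.LPK.H26
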